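import Mathlib
import Pool.Agent.Q20.QD.E

/-!
# The octic field of `x^8 + 84 x^6 + 1260 x^4 + 5292 x^2 + 441` and the dihedral octic extensions

For a root `α` one has `α² = -21 (1 + 1/√3 + 3/√14 + 5/√42)` for suitable signs of the square roots, and
`1 + 1/√3 + 3/√14 + 5/√42` is `1` plus the trace of the rotation with the rows `(1, 1, 1)/√3`, `(-2, 3, -1)/√14`,
`(-4, -1, 5)/√42`. An Euler angle decomposition of this rotation writes `α` in terms of square roots of elements
`x + y √d` of quadratic fields, which lie in the compositum of the `D_4`-extensions.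
-/

set_option autoImplicit false

namespace Pool.Agent.Results.MP_0ba956_nt.InCompositum

/-- The subfield `K` of `Ω` is a `D_4`-extension of `ℚ`: it is Galois over `ℚ` with Galois group isomorphic to the
dihedral group of order 8 (in Mathlib `DihedralGroup 4`). -/
def IsDihedralExtension {Ω : Type*} [Field Ω] [Algebra ℚ Ω] (K : IntermediateField ℚ Ω) : Prop :=
  IsGalois ℚ K ∧ Nonempty ((K ≃ₐ[ℚ] K) ≃* DihedralGroup 4)

/-- The compositum of all `D_4`-extensions of `ℚ` inside `Ω`. -/
def dihedralCompositum (Ω : Type*) [Field Ω] [Algebra ℚ Ω] : IntermediateField ℚ Ω :=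
  sSup {K | IsDihedralExtension K}

/-- auxiliary -/
def PG (F : Type*) [Field F] [Algebra ℚ F] (G : Type) [Group G] : Prop :=
  IsGalois ℚ F ∧ Nonempty ((F ≃ₐ[ℚ] F) ≃* G)

theorem transfer {F : Type*} [Field F] (i1 i2 : Algebra ℚ F) (G : Type) [Group G]
    (h : @PG F _ i1 G _) : @PG F _ i2 G _ := by
  obtain rfl : i1 = i2 := Subsingleton.elim _ _
  exact h

/-- The field generated by a root `α` of `x^8 + 84 x^6 + 1260 x^4 + 5292 x^2 + 441` is contained in the compositum
of all `D_4`-extensions of `ℚ`. -/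
theorem result (Ω : Type*) [Field Ω] [Algebra ℚ Ω] [IsAlgClosure ℚ Ω] (α : Ω)
    (hα : α ^ 8 + 84 * α ^ 6 + 1260 * α ^ 4 + 5292 * α ^ 2 + 441 = 0) :
    IntermediateField.adjoin ℚ {α} ≤ dihedralCompositum Ω := by
  have h0 : CharZero Ω := algebraRat.charZero Ω
  have h1 : IsAlgClosed Ω := IsAlgClosure.isAlgClosed ℚ
  have h2 : Algebra.IsAlgebraic ℚ Ω := IsAlgClosure.isAlgebraic
  have e : dihedralCompositum Ω = Pool.Agent.Q20.QD.QD4 Ω := by
    unfold dihedralCompositum Pool.Agent.Q20.QD.QD4
    congr 1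
    ext L
    exact ⟨fun h => transfer _ _ _ h, fun h => transfer _ _ _ h⟩
  rw [e, IntermediateField.adjoin_le_iff, Set.singleton_subset_iff]
  exact Pool.Agent.Q20.QD.root_mem' hα

end Pool.Agent.Results.MP_0ba956_nt.InCompositum
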